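import Pool.Agent.PX.Stmts

/-!
# Squad PX, row BAX: bad terms can be shortened (helper7; edit of `Helper41_PW/BAD.lean`)
-/

set_option autoImplicit false

namespace Pool.Agent.PX.H7

open MvPolynomial
open Pool.Agent.RS (FF io)
open Pool.Agent.PW (dd JUN RR FG Robust VV Piv del eul Ph Zer Free aFgm aFgx aFgz aRrs)
open Pool.Agent.PX

/-- BAX -/
theorem bax (hWwx : WwxStmt) : BaxStmt := by
  intro E _ _ c0 N R c
  unfold BT
  rw [Submodule.span_le]
  rintro w ⟨H, b, hRR, hFG, hlen, hb, hrob, rfl⟩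
  unfold Robust at hrob
  push Not at hrob
  obtain ⟨p, hp, hp0, hpc⟩ := hrob
  obtain ⟨-, m2, -, -, m5⟩ := aFgm E
  obtain ⟨-, r2, -, -, -, -⟩ := aRrs E (c + N)
  obtain ⟨S, hS⟩ := r2
  have hio : io E p ≠ 0 := by
    intro h
    apply hp0
    apply Pool.Agent.RS.io_injective
    rw [h, map_zero]
  have h1 : FG 0 p.vars (io E p) := by
    rw [(aFgz E p.vars (io E p)).1]
    refine ⟨p, 1, one_ne_zero, Finset.Subset.refl _, ?_, by rw [map_one, div_one]⟩
    rw [MvPolynomial.vars_one]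
    exact Finset.empty_subset _
  have h2 : FG 0 p.vars (io E p)⁻¹ := (aFgz E p.vars (io E p)).2 h1
  have h3 : FG N ∅ (io E p)⁻¹ := m2 _ N ∅ _ (by omega) (m5 0 p.vars _ h2)
  have h4 : FG (c + N) ∅ (H * (io E p)⁻¹) := aFgx E c N ∅ _ _ hFG h3
  have h5 : RR (c + N) H := (aRrs E c).2.2.2.1 (c + N) H (Nat.le_add_right _ _) hRR
  have h6 : RR (c + N) (io E p)⁻¹ :=
    (aRrs E N).2.2.2.1 (c + N) _ (Nat.le_add_left _ _) ((aRrs E N).2.2.2.2.2 p hp0 hpc.le)
  have h7 : RR (c + N) (H * (io E p)⁻¹) := by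
    rw [← hS] at h5 h6 ⊢
    exact S.mul_mem h5 h6
  have h8 := (hWwx E c0).2.1 R (c + N) b p (H * (io E p)⁻¹) hlen hb hp h4 h7
  have h9 : io E p * (H * (io E p)⁻¹) = H := by
    rw [mul_comm H, ← mul_assoc, mul_inv_cancel₀ hio, one_mul]
  rw [h9] at h8
  exact h8

end Pool.Agent.PX.H7
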